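import Pool.Agent.Y150.Ch.Line

set_option autoImplicit false

open Set Filter Topology Metric

namespace Pool.Agent.Q138.Ch

open Pool.Agent.W689.Ch Pool.Agent.TH845.Mk Pool.Agent.Y150.Ch
open Pool.Agent.W689.Mk (lin hol_add hol_sub hol_inv_apply hol_apply_inv lin_inv_apply lin_mul
  hol_cont)

/-- a finite nonempty totally ordered family of sets has a largest member -/
theorem exists_largest {ι E : Type} (S : ι → Set E) (htot : ∀ i j, S i ⊆ S j ∨ S j ⊆ S i)
    (F : Finset ι) (hF : F.Nonempty) : ∃ i ∈ F, ∀ j ∈ F, S j ⊆ S i := by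
  classical
  induction F using Finset.induction_on with
  | empty => exact absurd hF Finset.not_nonempty_empty
  | insert a s ha ih =>
    rcases s.eq_empty_or_nonempty with rfl | hs
    · refine ⟨a, Finset.mem_insert_self _ _, fun j hj => ?_⟩
      rcases Finset.mem_insert.1 hj with rfl | hj
      · exact Subset.rfl
      · exact absurd hj (Finset.notMem_empty _)
    · obtain ⟨i, hi, h⟩ := ih hs
      rcases htot i a with h1 | h1
      · refine ⟨a, Finset.mem_insert_self _ _, fun j hj => ?_⟩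
        rcases Finset.mem_insert.1 hj with rfl | hj
        · exact Subset.rfl
        · exact (h j hj).trans h1
      · refine ⟨i, Finset.mem_insert_of_mem hi, fun j hj => ?_⟩
        rcases Finset.mem_insert.1 hj with rfl | hj
        · exact h1
        · exact h j hj

section
variable {X Γ E : Type} [TopologicalSpace X] [T2Space X] [Group Γ] [MulAction Γ X]
  [NormedAddCommGroup E] [NormedSpace ℝ E] [FiniteDimensional ℝ E]
  {dev : X → E} {hol : Γ →* (E ≃ᵃ[ℝ] E)} {G : Subgroup Γ} {H : AffineSubspace ℝ E} {x₀ : X}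

/-- a convex set which is dense in an affine subspace is the subspace -/
theorem dense_convex {p₀ : E} (hp : p₀ ∈ H) {C : Set E} (hC : Convex ℝ C) (hCH : C ⊆ H)
    (hd : (H : Set E) ⊆ closure C) : C = H := by
  have h1 : Convex ℝ {v : H.direction | p₀ + v.1 ∈ C} := by
    intro v hv w hw a b ha hb hab
    have h2 := hC hv hw ha hb hab
    have h3 : a • (p₀ + v.1) + b • (p₀ + w.1) = p₀ + (a • v.1 + b • w.1) := by
      have : b = 1 - a := by linarith
      rw [this]; module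
    rw [h3] at h2
    exact h2
  have h2 : closure {v : H.direction | p₀ + v.1 ∈ C} = univ := by
    refine eq_univ_of_forall fun v => Metric.mem_closure_iff.2 fun ε hε => ?_
    obtain ⟨q, hq, hqv⟩ := Metric.mem_closure_iff.1 (hd (add_mem_H hp v)) ε hε
    refine ⟨⟨q - p₀, sub_mem_dir hp (hCH hq)⟩, ?_, ?_⟩
    · show p₀ + (q - p₀) ∈ C
      rwa [add_sub_cancel]
    · rw [dist_eq_norm] at hqv ⊢
      show ‖v.1 - (q - p₀)‖ < ε
      have : v.1 - (q - p₀) = p₀ + v.1 - q := by abel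
      rwa [this]
  have h3 := convex_dense h1 h2
  refine Subset.antisymm hCH fun q hq => ?_
  have h4 : (⟨q - p₀, sub_mem_dir hp hq⟩ : H.direction) ∈ {v : H.direction | p₀ + v.1 ∈ C} := by
    rw [h3]; exact mem_univ _
  have h5 : p₀ + (q - p₀) ∈ C := h4
  rwa [add_sub_cancel] at h5

/-- **Invariant chains of convex sets are trivial on the rigid core.** -/
theorem chain_trivial (D : AffMfd X Γ E dev hol) (m : Min dev hol G H x₀) {K : Subgroup Γ}
    (hKG : K ≤ G) (hK : K.FiniteIndex) {𝒞 : Set (Set E)} (hconv : ∀ C ∈ 𝒞, Convex ℝ C)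
    (hsub : ∀ C ∈ 𝒞, C ⊆ H) (hchain : ∀ C ∈ 𝒞, ∀ C' ∈ 𝒞, C ⊆ C' ∨ C' ⊆ C)
    (hinv : ∀ γ ∈ K, ∀ C ∈ 𝒞, hol γ '' C ∈ 𝒞) : ∀ C ∈ 𝒞, C.Nonempty → C = H := by
  have D' := restr D K hK
  obtain ⟨ρ, hρ⟩ := exists_wt D'
  have hinvK : ∀ γ : K, ∀ q ∈ H, hol γ.1 q ∈ H := fun γ q hq => m.inv γ.1 (hKG γ.2) q hq
  have hHc : Convex ℝ (H : Set E) := H.convex
  set L : Set E := dev '' (tsupport ρ) with hL
  have hLc : IsCompact L := hρ.cpt.isCompact.image D.loc.continuous
  by_cases hA : ∃ C ∈ 𝒞, C.Nonempty ∧ C ∩ L = ∅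
  · exfalso
    obtain ⟨C, hC, ⟨c, hc⟩, hCL⟩ := hA
    have hcH : c ∈ H := hsub C hC hc
    set h : X → E := av ρ (fun γ : K => (hol.comp K.subtype) γ⁻¹ c) with hh
    have hhH : ∀ x, h x ∈ (H : Set E) := fun x => av_mem hρ hHc (fun γ => hinvK γ⁻¹ c hcH) x
    refine m.fld K hKG hK ⟨fun x => h x - dev x, ?_, ?_, ?_⟩
    · exact ((av_cont D' hρ _).sub D.loc.continuous).continuousOn
    · intro x hx
      refine ⟨sub_mem_dir hx (hhH x), fun h0 => ?_⟩
      have h1 : h x = dev x := sub_eq_zero.1 h0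
      obtain ⟨U, hU, F, hF⟩ := hρ.locfin x
      have hx0 := mem_of_mem_nhds hU
      classical
      set F' : Finset K := F.filter fun γ => ρ (γ • x) ≠ 0 with hF'
      have hsum : ∑ γ ∈ F', ρ (γ • x) = 1 := by
        rw [← hρ.sum x]
        symm
        refine tsum_eq_sum fun γ hγ => ?_
        by_contra hne
        refine hγ (Finset.mem_filter.2 ⟨?_, hne⟩)
        by_contra hγF
        exact hne (hF γ hγF x hx0)
      have hav : h x = ∑ γ ∈ F', ρ (γ • x) • (hol.comp K.subtype) γ⁻¹ c := by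
        refine tsum_eq_sum fun γ hγ => ?_
        have : ρ (γ • x) = 0 := by
          by_contra hne
          refine hγ (Finset.mem_filter.2 ⟨?_, hne⟩)
          by_contra hγF
          exact hne (hF γ hγF x hx0)
        rw [this, zero_smul]
      have hne : F'.Nonempty := by
        by_contra hcon
        rw [Finset.not_nonempty_iff_eq_empty] at hcon
        rw [hcon, Finset.sum_empty] at hsum
        exact zero_ne_one hsum
      obtain ⟨γ₀, hγ₀, hmax⟩ := exists_largest (fun γ : K => hol (γ⁻¹ : K).1 '' C)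
        (fun γ δ => hchain _ (hinv _ (γ⁻¹ : K).2 C hC) _ (hinv _ (δ⁻¹ : K).2 C hC)) F' hne
      have hmem : h x ∈ hol (γ₀⁻¹ : K).1 '' C := by
        rw [hav]
        exact (hconv _ (hinv _ (γ₀⁻¹ : K).2 C hC)).sum_mem (fun γ _ => hρ.nonneg _) hsum
          fun γ hγ => hmax γ hγ ⟨c, hc, rfl⟩
      obtain ⟨q, hq, hqx⟩ := hmem
      have h2 : dev (γ₀.1 • x) = q := by
        rw [D.equi, ← h1, ← hqx]
        exact hol_apply_inv γ₀.1 q
      have h3 : q ∈ L := by
        rw [← h2]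
        exact ⟨_, subset_tsupport ρ (Finset.mem_filter.1 hγ₀).2, rfl⟩
      have h4 : q ∈ C ∩ L := ⟨hq, h3⟩
      rw [hCL] at h4
      exact h4
    · intro γ x _
      show h (γ • x) - dev (γ • x) = lin (hol.comp K.subtype) γ (h x - dev x)
      rw [← hol_sub, hh, av_hol hρ]
      congr 1
      exact D'.equi γ x
  · push Not at hA
    intro C₀ hC₀ hne₀
    set 𝒟 : Set (Set E) := {C | C ∈ 𝒞 ∧ C.Nonempty} with h𝒟
    set I : Set E := ⋂ C : 𝒟, closure C.1 with hI
    have hHcl : IsClosed (H : Set E) := H.closed_of_finiteDimensional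
    have hIH : I ⊆ H := fun q hq =>
      closure_minimal (hsub C₀ hC₀) hHcl (mem_iInter.1 hq ⟨C₀, hC₀, hne₀⟩)
    have hIne : I.Nonempty := by
      have hnon : Nonempty 𝒟 := ⟨⟨C₀, hC₀, hne₀⟩⟩
      have h1 : (⋂ C : 𝒟, closure C.1 ∩ L).Nonempty := by
        refine IsCompact.nonempty_iInter_of_directed_nonempty_isCompact_isClosed _ ?_ ?_ ?_ ?_
        · rintro ⟨C, hC, hCne⟩ ⟨C', hC', hCne'⟩
          rcases hchain C hC C' hC' with h | h
          · exact ⟨⟨C, hC, hCne⟩, Subset.rfl, inter_subset_inter_left _ (closure_mono h)⟩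
          · exact ⟨⟨C', hC', hCne'⟩, inter_subset_inter_left _ (closure_mono h), Subset.rfl⟩
        · rintro ⟨C, hC, hCne⟩
          exact (hA C hC hCne).mono
            (inter_subset_inter_left _ subset_closure)
        · exact fun C => hLc.inter_left isClosed_closure
        · exact fun C => isClosed_closure.inter hLc.isClosed
      obtain ⟨q, hq⟩ := h1
      exact ⟨q, mem_iInter.2 fun C => (mem_iInter.1 hq C).1⟩
    have hIconv : Convex ℝ I := convex_iInter fun C => (hconv C.1 C.2.1).closure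
    have hIinv : ∀ γ ∈ K, ∀ q ∈ I, hol γ q ∈ I := by
      intro γ hγ q hq
      refine mem_iInter.2 ?_
      rintro ⟨C, hC, hCne⟩
      have h1 : hol γ⁻¹ '' C ∈ 𝒟 := ⟨hinv _ (K.inv_mem hγ) C hC, hCne.image _⟩
      have h2 := mem_iInter.1 hq ⟨_, h1⟩
      have h3 : hol γ q ∈ hol γ '' closure (hol γ⁻¹ '' C) := ⟨q, h2, rfl⟩
      have h4 := image_closure_subset_closure_image (hol_cont (hol := hol) γ) h3
      have h5 : hol γ '' (hol γ⁻¹ '' C) = C := by
        ext p
        constructor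
        · rintro ⟨_, ⟨r, hr, rfl⟩, rfl⟩
          rwa [hol_apply_inv]
        · intro hp
          exact ⟨_, ⟨p, hp, rfl⟩, hol_apply_inv γ p⟩
      rwa [h5] at h4
    obtain ⟨p, hp⟩ := hIne
    have h1 : I = H := m.star K hKG hK I p hp hIH (hIconv.starConvex hp) hIinv
    refine dense_convex m.mem (hconv C₀ hC₀) (hsub C₀ hC₀) ?_
    rw [← h1]
    exact fun q hq => mem_iInter.1 hq ⟨C₀, hC₀, hne₀⟩

/-- quasiconvex functions whose level sets are permuted monotonically are constant -/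
theorem quasi_const {β : Type} [LinearOrder β] (D : AffMfd X Γ E dev hol)
    (m : Min dev hol G H x₀) {K : Subgroup Γ} (hKG : K ≤ G) (hK : K.FiniteIndex) {F : E → β}
    (hF : QuasiconvexOn ℝ (H : Set E) F)
    (hmon : ∀ γ ∈ K, ∃ h : β → β, Monotone h ∧ ∀ q ∈ H, F (hol γ q) = h (F q)) :
    ∀ p ∈ H, ∀ q ∈ H, F p = F q := by
  have key : ∀ p ∈ H, {q ∈ (H : Set E) | F q ≤ F p} = H := by
    intro p hp
    refine chain_trivial D m hKG hK (𝒞 := {C | ∃ p ∈ H, C = {q ∈ (H : Set E) | F q ≤ F p}})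
      ?_ ?_ ?_ ?_ _ ⟨p, hp, rfl⟩ ⟨p, hp, le_rfl⟩
    · rintro _ ⟨p, hp, rfl⟩
      exact hF (F p)
    · rintro _ ⟨p, hp, rfl⟩ q hq
      exact hq.1
    · rintro _ ⟨p, hp, rfl⟩ _ ⟨p', hp', rfl⟩
      rcases le_total (F p) (F p') with h | h
      · exact Or.inl fun q hq => ⟨hq.1, hq.2.trans h⟩
      · exact Or.inr fun q hq => ⟨hq.1, hq.2.trans h⟩
    · rintro γ hγ _ ⟨p, hp, rfl⟩
      have hγp : hol γ p ∈ H := m.inv γ (hKG hγ) p hp
      refine ⟨hol γ p, hγp, Subset.antisymm ?_ ?_⟩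
      · rintro _ ⟨q, ⟨hqH, hq⟩, rfl⟩
        obtain ⟨h, hh, he⟩ := hmon γ hγ
        refine ⟨m.inv γ (hKG hγ) q hqH, ?_⟩
        rw [he q hqH, he p hp]
        exact hh hq
      · rintro q ⟨hqH, hq⟩
        obtain ⟨h, hh, he⟩ := hmon γ⁻¹ (K.inv_mem hγ)
        refine ⟨hol γ⁻¹ q, ⟨m.inv γ⁻¹ (hKG (K.inv_mem hγ)) q hqH, ?_⟩, hol_apply_inv γ q⟩
        have h1 := hh hq
        rw [← he q hqH, ← he _ hγp, hol_inv_apply] at h1
        exact h1
  have h1 : ∀ p ∈ H, ∀ q ∈ H, F q ≤ F p := by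
    intro p hp q hq
    have : q ∈ {q ∈ (H : Set E) | F q ≤ F p} := by rw [key p hp]; exact hq
    exact this.2
  exact fun p hp q hq => le_antisymm (h1 q hq p hp) (h1 p hp q hq)

end

end Pool.Agent.Q138.Ch
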