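import Pool.Agent.Y150.Ch.Line
import Pool.Agent.TH289.N.A2

set_option autoImplicit false

open Set Filter Topology Metric

namespace Pool.Agent.Q138.Ch

open Pool.Agent.W689.Ch Pool.Agent.TH845.Mk Pool.Agent.Y150.Ch
open Pool.Agent.W689.Mk (lin hol_add hol_sub hol_inv_apply hol_apply_inv lin_inv_apply lin_mul
  hol_cont)

section
variable {X Γ E : Type} [TopologicalSpace X] [T2Space X] [Group Γ] [MulAction Γ X]
  [NormedAddCommGroup E] [NormedSpace ℝ E] [FiniteDimensional ℝ E]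
  {dev : X → E} {hol : Γ →* (E ≃ᵃ[ℝ] E)} {G : Subgroup Γ} {H : AffineSubspace ℝ E} {x₀ : X}
  {W : Type} [NormedAddCommGroup W] [NormedSpace ℝ W]

theorem aff_eq (T : W ≃ᵃ[ℝ] W) (v : W) : T v = T 0 + T.linear v := by
  have h := T.map_vadd 0 v
  rw [vadd_eq_add, vadd_eq_add, add_zero] at h
  rw [h, add_comm]

/-- averages of orbits of affine actions are equivariant -/
theorem av_aff {ρ : X → ℝ} (hρ : Wt Γ ρ) (a : Γ →* (W ≃ᵃ[ℝ] W)) (p : W) (δ : Γ) (x : X) :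
    av ρ (fun γ : Γ => a γ⁻¹ p) (δ • x) = a δ (av ρ (fun γ : Γ => a γ⁻¹ p) x) := by
  rw [av_shift]
  obtain ⟨U, hU, F, hF⟩ := hρ.locfin x
  have hF' : ∀ γ : Γ, γ ∉ F → ρ (γ • x) = 0 := fun γ hγ => hF γ hγ x (mem_of_mem_nhds hU)
  have h1 : ∀ P : Γ → W, av ρ P x = ∑ γ ∈ F, ρ (γ • x) • P γ := fun P =>
    tsum_eq_sum fun γ hγ => by rw [hF' γ hγ, zero_smul]
  have h2 : ∑ γ ∈ F, ρ (γ • x) = 1 := by
    rw [← hρ.sum x]
    exact (tsum_eq_sum fun γ hγ => hF' γ hγ).symm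
  rw [h1, h1, aff_eq (a δ) (∑ γ ∈ F, ρ (γ • x) • a γ⁻¹ p), map_sum]
  have h3 : ∀ γ : Γ, a (γ * δ⁻¹)⁻¹ p = a δ 0 + (a δ).linear (a γ⁻¹ p) := by
    intro γ
    rw [mul_inv_rev, inv_inv, map_mul, ← aff_eq]
    rfl
  simp_rw [h3, smul_add, Finset.sum_add_distrib, ← Finset.sum_smul, h2, one_smul]
  congr 1
  refine Finset.sum_congr rfl fun γ _ => ?_
  exact ((a δ).linear.map_smul _ _).symm

/-- two equivariant maps coincide somewhere -/
theorem coincide_of (D : AffMfd X Γ E dev hol) (m : Min dev hol G H x₀) {K : Subgroup Γ}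
    (hKG : K ≤ G) (hK : K.FiniteIndex) {f g : X → E} (hf : ContinuousOn f {x | dev x ∈ H})
    (hg : ContinuousOn g {x | dev x ∈ H}) (hfH : ∀ x, dev x ∈ H → f x ∈ H)
    (hgH : ∀ x, dev x ∈ H → g x ∈ H)
    (hfe : ∀ γ ∈ K, ∀ x, dev x ∈ H → f (γ • x) = hol γ (f x))
    (hge : ∀ γ ∈ K, ∀ x, dev x ∈ H → g (γ • x) = hol γ (g x)) :
    ∃ x, dev x ∈ H ∧ f x = g x := by
  by_contra hcon
  push Not at hcon
  refine m.fld K hKG hK ⟨fun x => f x - g x, hf.sub hg, fun x hx =>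
    ⟨sub_mem_dir (hgH x hx) (hfH x hx), fun h => hcon x hx (sub_eq_zero.1 h)⟩, fun γ x hx => ?_⟩
  show f (γ.1 • x) - g (γ.1 • x) = lin hol γ.1 (f x - g x)
  rw [hfe γ.1 γ.2 x hx, hge γ.1 γ.2 x hx, hol_sub]

/-- there is an equivariant map to every convex set with an affine action -/
theorem exists_map (D : AffMfd X Γ E dev hol) {K : Subgroup Γ} (hK : K.FiniteIndex)
    (a : K →* (W ≃ᵃ[ℝ] W)) {C : Set W} (hC : Convex ℝ C) (hne : C.Nonempty)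
    (hinv : ∀ γ, ∀ w ∈ C, a γ w ∈ C) : ∃ h : X → W, Continuous h ∧ (∀ x, h x ∈ C) ∧
      ∀ (γ : K) x, h (γ • x) = a γ (h x) := by
  have D' := restr D K hK
  obtain ⟨ρ, hρ⟩ := exists_wt D'
  obtain ⟨p, hp⟩ := hne
  exact ⟨av ρ (fun γ : K => a γ⁻¹ p), av_cont D' hρ _,
    fun x => av_mem hρ hC (fun γ => hinv γ⁻¹ p hp) x, fun γ x => av_aff hρ a p γ x⟩

end

end Pool.Agent.Q138.Ch
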