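import Pool.Agent.Q138.Ch.Coin

set_option autoImplicit false

open Set Filter Topology Metric

namespace Pool.Agent.Q138.Ch

open Pool.Agent.W689.Ch Pool.Agent.TH845.Mk Pool.Agent.Y150.Ch
open Pool.Agent.W689.Mk (lin hol_add hol_sub hol_inv_apply hol_apply_inv lin_inv_apply lin_mul
  hol_cont)

section
variable {X Γ E : Type} [TopologicalSpace X] [T2Space X] [Group Γ] [MulAction Γ X]
  [NormedAddCommGroup E] [NormedSpace ℝ E] [FiniteDimensional ℝ E]
  {dev : X → E} {hol : Γ →* (E ≃ᵃ[ℝ] E)} {G : Subgroup Γ} {H : AffineSubspace ℝ E} {x₀ : X}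

/-- the linear holonomy as a continuous linear map -/
noncomputable def lcm (hol : Γ →* (E ≃ᵃ[ℝ] E)) (γ : Γ) : E →L[ℝ] E :=
  LinearMap.toContinuousLinearMap ((hol γ).linear : E →ₗ[ℝ] E)

theorem lcm_apply (γ : Γ) (v : E) : lcm hol γ v = lin hol γ v := rfl

/-- derivative of the pull back of a function by an affine map -/
theorem deriv_pull {F F' : E → ℝ} (hF : ContDiff ℝ 1 F) (hF' : ContDiff ℝ 1 F') {γ : Γ} {c τ : ℝ}
    (h : ∀ q ∈ H, F (hol γ q) = c * F' q + τ) {q v : E} (hq : q ∈ H) (hv : v ∈ H.direction) :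
    fderiv ℝ F (hol γ q) (lin hol γ v) = c * fderiv ℝ F' q v := by
  have hmem : ∀ t : ℝ, q + t • v ∈ H := fun t => by
    have := AffineSubspace.vadd_mem_of_mem_direction (H.direction.smul_mem t hv) hq
    rwa [vadd_eq_add, add_comm] at this
  have h1 : HasDerivAt (fun t : ℝ => F (hol γ (q + t • v)))
      (fderiv ℝ F (hol γ q) (lin hol γ v)) 0 := by
    have e : (fun t : ℝ => F (hol γ (q + t • v))) = fun t : ℝ => F (hol γ q + t • lin hol γ v) := by
      funext t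
      rw [hol_add]
      congr 2
      exact (hol γ).linear.map_smul t v
    rw [e]
    have h2 : HasDerivAt (fun t : ℝ => hol γ q + t • lin hol γ v) (lin hol γ v) 0 := by
      have := ((hasDerivAt_id (0 : ℝ)).smul_const (lin hol γ v)).const_add (hol γ q)
      simpa using this
    have h3 : HasFDerivAt F (fderiv ℝ F (hol γ q)) (hol γ q + (0 : ℝ) • lin hol γ v) := by
      rw [zero_smul, add_zero]
      exact ((hF.differentiable one_ne_zero) _).hasFDerivAt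
    exact h3.comp_hasDerivAt (0 : ℝ) h2
  have h4 : HasDerivAt (fun t : ℝ => F (hol γ (q + t • v))) (c * fderiv ℝ F' q v) 0 := by
    have e : (fun t : ℝ => F (hol γ (q + t • v))) = fun t : ℝ => c * F' (q + t • v) + τ := by
      funext t
      exact h _ (hmem t)
    rw [e]
    have h2 : HasDerivAt (fun t : ℝ => q + t • v) v 0 := by
      have := ((hasDerivAt_id (0 : ℝ)).smul_const v).const_add q
      simpa using this
    have h3 : HasFDerivAt F' (fderiv ℝ F' q) (q + (0 : ℝ) • v) := by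
      rw [zero_smul, add_zero]
      exact ((hF'.differentiable one_ne_zero) _).hasFDerivAt
    exact ((h3.comp_hasDerivAt (0 : ℝ) h2).const_mul c).add_const τ
  exact h1.unique h4

/-- **Critical points of invariant convex families of functions.** -/
theorem crit (D : AffMfd X Γ E dev hol) (m : Min dev hol G H x₀) {K : Subgroup Γ}
    (hKG : K ≤ G) (hK : K.FiniteIndex) {𝓕 : Set (E → ℝ)} (hconv : Convex ℝ 𝓕)
    (hne : 𝓕.Nonempty) (hC1 : ∀ F ∈ 𝓕, ContDiff ℝ 1 F)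
    (hinv : ∀ γ ∈ K, ∀ F ∈ 𝓕, ∃ F' ∈ 𝓕, ∃ c τ : ℝ, 0 < c ∧ ∀ q ∈ H, F (hol γ q) = c * F' q + τ) :
    ∃ F ∈ 𝓕, ∃ x, dev x ∈ H ∧ ∀ v ∈ H.direction, fderiv ℝ F (dev x) v = 0 := by
  classical
  by_contra hcon
  push Not at hcon
  obtain ⟨F₀, hF₀⟩ := hne
  have D' := restr D K hK
  obtain ⟨ρ, hρ⟩ := exists_wt D'
  have hinvK : ∀ (γ : K), ∀ q ∈ H, (hol.comp K.subtype) γ q ∈ H := fun γ q hq =>
    m.inv γ.1 (hKG γ.2) q hq
  choose P hP c τ hc hPc using fun γ : K => hinv γ.1 γ.2 F₀ hF₀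
  let Ψ : X → E →L[ℝ] ℝ := fun x =>
    ∑' γ : K, ρ (γ • x) • (fderiv ℝ F₀ (dev (γ • x))).comp (lcm hol γ.1)
  have hlocf : ∀ x, ∃ U ∈ 𝓝 x, ∃ F : Finset K, ∀ γ : K, γ ∉ F → ∀ y ∈ U,
      ρ (γ • y) • (fderiv ℝ F₀ (dev (γ • y))).comp (lcm hol γ.1) = 0 := by
    intro x
    obtain ⟨U, hU, F, hF⟩ := hρ.locfin x
    exact ⟨U, hU, F, fun γ hγ y hy => by rw [hF γ hγ y hy, zero_smul]⟩
  have hΨc : Continuous Ψ := by
    refine cont_tsum (fun γ => ?_) hlocf
    have h1 : Continuous fun x => fderiv ℝ F₀ (dev (γ • x)) :=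
      ((hC1 F₀ hF₀).continuous_fderiv one_ne_zero).comp (D.loc.continuous.comp (D'.cont γ))
    exact (hρ.cont.comp (D'.cont γ)).smul (h1.clm_comp continuous_const)
  have hΨe : ∀ (δ : K) x v, Ψ (δ • x) (lin hol δ.1 v) = Ψ x v := by
    intro δ x v
    obtain ⟨U, hU, F, hF⟩ := hρ.locfin x
    obtain ⟨U', hU', F', hF'⟩ := hρ.locfin (δ • x)
    have h1 : Ψ x v = ∑' γ : K, ρ (γ • x) • (fderiv ℝ F₀ (dev (γ • x))).comp (lcm hol γ.1) v := by
      have e1 : Ψ x = ∑ γ ∈ F, ρ (γ • x) • (fderiv ℝ F₀ (dev (γ • x))).comp (lcm hol γ.1) :=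
        tsum_eq_sum fun γ hγ => by rw [hF γ hγ x (mem_of_mem_nhds hU), zero_smul]
      rw [e1, sum_apply]
      symm
      refine (tsum_eq_sum fun γ hγ => ?_).trans rfl
      rw [hF γ hγ x (mem_of_mem_nhds hU), zero_smul]
    have h2 : Ψ (δ • x) (lin hol δ.1 v) = ∑' γ : K, ρ (γ • δ • x) •
        (fderiv ℝ F₀ (dev (γ • δ • x))).comp (lcm hol γ.1) (lin hol δ.1 v) := by
      have e1 : Ψ (δ • x) = ∑ γ ∈ F', ρ (γ • δ • x) •
          (fderiv ℝ F₀ (dev (γ • δ • x))).comp (lcm hol γ.1) :=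
        tsum_eq_sum fun γ hγ => by rw [hF' γ hγ _ (mem_of_mem_nhds hU'), zero_smul]
      rw [e1, sum_apply]
      symm
      refine (tsum_eq_sum fun γ hγ => ?_).trans rfl
      rw [hF' γ hγ _ (mem_of_mem_nhds hU'), zero_smul]
    rw [h1, h2, ← Equiv.tsum_eq (Equiv.mulRight δ) (fun γ : K =>
      ρ (γ • x) • (fderiv ℝ F₀ (dev (γ • x))).comp (lcm hol γ.1) v)]
    refine tsum_congr fun γ => ?_
    show ρ (γ • δ • x) • fderiv ℝ F₀ (dev (γ • δ • x)) (lin hol γ.1 (lin hol δ.1 v)) =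
      ρ ((γ * δ) • x) • fderiv ℝ F₀ (dev ((γ * δ) • x)) (lin hol (γ * δ : K).1 v)
    rw [mul_smul]
    have h3 : lin hol (γ * δ : K).1 v = lin hol γ.1 (lin hol δ.1 v) := lin_mul γ.1 δ.1 v
    rw [h3]
  have hΨ0 : ∀ x, dev x ∈ H → ∃ v ∈ H.direction, Ψ x v ≠ 0 := by
    intro x hx
    obtain ⟨U, hU, F, hF⟩ := hρ.locfin x
    have hx0 := mem_of_mem_nhds hU
    have h1 : Ψ x = ∑ γ ∈ F, ρ (γ • x) • (fderiv ℝ F₀ (dev (γ • x))).comp (lcm hol γ.1) :=
      tsum_eq_sum fun γ hγ => by rw [hF γ hγ x hx0, zero_smul]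
    have h2 : ∑ γ ∈ F, ρ (γ • x) = 1 := by
      rw [← hρ.sum x]
      exact (tsum_eq_sum fun γ hγ => hF γ hγ x hx0).symm
    set C : ℝ := ∑ γ ∈ F, ρ (γ • x) * c γ with hC
    have hC0 : 0 < C := by
      have hnn : ∀ γ ∈ F, 0 ≤ ρ (γ • x) * c γ := fun γ _ => mul_nonneg (hρ.nonneg _) (hc γ).le
      rcases (Finset.sum_nonneg hnn).lt_or_eq with h | h
      · exact h
      · exfalso
        have h3 := (Finset.sum_eq_zero_iff_of_nonneg hnn).1 h.symm
        have h4 : ∑ γ ∈ F, ρ (γ • x) = 0 := Finset.sum_eq_zero fun γ hγ => by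
          rcases mul_eq_zero.1 (h3 γ hγ) with h5 | h5
          · exact h5
          · exact absurd h5 (hc γ).ne'
        rw [h4] at h2
        exact zero_ne_one h2
    let Q : E → ℝ := ∑ γ ∈ F, (ρ (γ • x) * c γ / C) • P γ
    have hQ : Q ∈ 𝓕 := by
      refine hconv.sum_mem (fun γ _ => ?_) ?_ fun γ _ => hP γ
      · exact div_nonneg (mul_nonneg (hρ.nonneg _) (hc γ).le) hC0.le
      · rw [← Finset.sum_div, ← hC, div_self hC0.ne']
    obtain ⟨v, hv, hne⟩ := hcon Q hQ x hx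
    refine ⟨v, hv, ?_⟩
    have h3 : fderiv ℝ Q (dev x) = ∑ γ ∈ F, (ρ (γ • x) * c γ / C) • fderiv ℝ (P γ) (dev x) := by
      have hd : ∀ γ ∈ F, HasFDerivAt ((ρ (γ • x) * c γ / C) • P γ)
          ((ρ (γ • x) * c γ / C) • fderiv ℝ (P γ) (dev x)) (dev x) := fun γ _ =>
        ((((hC1 _ (hP γ)).differentiable one_ne_zero) _).hasFDerivAt).const_smul _
      exact (HasFDerivAt.sum hd).fderiv
    have h4 : Ψ x v = C * fderiv ℝ Q (dev x) v := by
      rw [h1, h3, sum_apply, sum_apply, Finset.mul_sum]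
      refine Finset.sum_congr rfl fun γ _ => ?_
      have h5 := deriv_pull (hC1 F₀ hF₀) (hC1 _ (hP γ)) (hPc γ) hx hv
      have h6 : dev (γ • x) = hol γ.1 (dev x) := D.equi γ.1 x
      show ρ (γ • x) * (fderiv ℝ F₀ (dev (γ • x)) (lin hol γ.1 v)) =
        C * ((ρ (γ • x) * c γ / C) * fderiv ℝ (P γ) (dev x) v)
      rw [h6, h5]
      field_simp
    rw [h4]
    exact mul_ne_zero hC0.ne' hne
  let _ := subAct D' hinvK
  have D'' := subMfd D' m.mem hinvK
  refine m.fld K hKG hK (fld_of_sub D' m.mem hinvK ?_)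
  refine Pool.Agent.TH289.N.field_of_covector D''
    (Φ := fun x => (Ψ x.1).comp H.direction.subtypeL) ?_ ?_ ?_
  · exact (hΨc.comp continuous_subtype_val).clm_comp continuous_const
  · intro γ x v
    show Ψ (γ • x.1) (lin hol γ.1 v.1) = Ψ x.1 v.1
    exact hΨe γ x.1 v.1
  · intro x h0
    obtain ⟨v, hv, hne⟩ := hΨ0 x.1 x.2
    exact hne (congrArg (fun g : H.direction →L[ℝ] ℝ => g ⟨v, hv⟩) h0)

end

end Pool.Agent.Q138.Ch
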